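import Pool.Agent.COSB.StmtsB

/-!
# Words of matrices over `Z / p^k` (row WDP of squad COSB)

Problem MP_0fc649_lc.
-/

set_option autoImplicit false

namespace Pool.Agent.COSB.H76

open Pool.Agent.PAR Pool.Agent.COS Pool.Agent.COSB

/-! ### blocks -/

theorem bl_zero (b : ℕ) (u v : Word) (h : u.length = b) : blW b (u ++ v) 0 = u := by
  unfold blW
  rw [Nat.zero_mul, List.drop_zero, ← h, List.take_left]

theorem bl_succ (b t : ℕ) (u v : Word) (h : u.length = b) :
    blW b (u ++ v) (t + 1) = blW b v t := by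
  unfold blW
  have e : (t + 1) * b = u.length + t * b := by rw [h]; ring
  rw [e, List.drop_append, List.drop_eq_nil_of_le (by omega), List.nil_append,
    Nat.add_sub_cancel_left]

theorem bl_flat {α : Type} (b : ℕ) (g : α → Word) (L : List α) (hg : ∀ a, (g a).length = b) :
    ∀ (t : ℕ) (x : α), L[t]? = some x → blW b (L.flatMap g) t = g x := by
  induction L with
  | nil => intro t x h; simp at h
  | cons a L ih =>
    intro t x h
    rw [List.flatMap_cons]
    cases t with
    | zero =>
      have h1 : a = x := by simpa using h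
      rw [bl_zero b _ _ (hg a), h1]
    | succ t =>
      rw [bl_succ b t _ _ (hg a)]
      exact ih t x (by simpa using h)

theorem len_flat {α : Type} (b : ℕ) (g : α → Word) (L : List α) (hg : ∀ a, (g a).length = b) :
    (L.flatMap g).length = L.length * b := by
  induction L with
  | nil => simp
  | cons a L ih =>
    rw [List.flatMap_cons, List.length_append, ih, hg, List.length_cons]
    ring

/-- a block of a block -/
theorem bl_bl (b k : ℕ) (w : Word) (r t : ℕ) (ht : t < k) :
    blW b w (r * k + t) = blW b (blW (k * b) w r) t := by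
  unfold blW
  rw [List.drop_take, List.drop_drop, List.take_take]
  have e1 : r * (k * b) + t * b = (r * k + t) * b := by ring
  have e2 : min b (k * b - t * b) = b := by
    apply min_eq_left
    have : (t + 1) * b ≤ k * b := Nat.mul_le_mul_right b ht
    have e3 : (t + 1) * b = t * b + b := by ring
    omega
  rw [e1, e2]

theorem bl_get (b : ℕ) (w : Word) (t s : ℕ) (hs : s < b) : (blW b w t)[s]? = w[t * b + s]? := by
  unfold blW
  rw [List.getElem?_take_of_lt hs, List.getElem?_drop]

theorem bl_ext (b m : ℕ) (w w' : Word) (h : w.length = m * b) (h' : w'.length = m * b)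
    (hb : ∀ t < m, blW b w t = blW b w' t) : w = w' := by
  apply List.ext_getElem?
  intro i
  rcases Nat.lt_or_ge i (m * b) with hi | hi
  · have hb0 : 0 < b := by
      rcases Nat.eq_zero_or_pos b with h0 | h0
      · rw [h0] at hi; omega
      · exact h0
    have e : i = i / b * b + i % b := by
      rw [Nat.mul_comm]; exact (Nat.div_add_mod i b).symm
    have hs : i % b < b := Nat.mod_lt _ hb0
    have ht : i / b < m := Nat.div_lt_of_lt_mul (by rw [Nat.mul_comm]; exact hi)
    rw [e, ← bl_get b w _ _ hs, ← bl_get b w' _ _ hs, hb _ ht]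
  · rw [List.getElem?_eq_none (by omega), List.getElem?_eq_none (by omega)]

/-! ### binary digits -/

/-- the word of the binary digits -/
def dw (b v : ℕ) : Word := (List.range b).map fun s => v.testBit s

theorem dw_len (b v : ℕ) : (dw b v).length = b := by simp [dw]

theorem bval_dw (b v : ℕ) (hv : v < 2 ^ b) : bval (dw b v) = v := by
  unfold bval
  rw [dw_len]
  have key : ∀ c ≤ b, (∑ i ∈ Finset.range c, if (dw b v).getD i false then 2 ^ i else 0) =
      v % 2 ^ c := by
    intro c hc
    induction c with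
    | zero => simp [Nat.mod_one]
    | succ c ih =>
      rw [Finset.sum_range_succ, ih (by omega), Nat.mod_pow_succ]
      congr 1
      have e : (dw b v).getD c false = v.testBit c := by
        unfold dw
        rw [List.getD_eq_getElem?_getD, List.getElem?_map, List.getElem?_range (by omega)]
        rfl
      rw [e, Nat.testBit_eq_decide_div_mod_eq]
      rcases Nat.mod_two_eq_zero_or_one (v / 2 ^ c) with h0 | h0
      · simp [h0]
      · simp [h0]
  rw [key b le_rfl]
  exact Nat.mod_eq_of_lt hv

theorem bval_cons (x : Bool) (u : Word) : bval (x :: u) = x.toNat + 2 * bval u := by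
  unfold bval
  rw [List.length_cons, Finset.sum_range_succ', Finset.mul_sum]
  have e1 : (if (x :: u).getD 0 false = true then 2 ^ 0 else 0) = x.toNat := by
    cases x <;> simp
  rw [e1, Nat.add_comm]
  congr 1
  apply Finset.sum_congr rfl
  intro i _
  have e2 : (x :: u).getD (i + 1) false = u.getD i false := rfl
  rw [e2]
  split_ifs
  · ring
  · rfl

theorem bval_lt (u : Word) : bval u < 2 ^ u.length := by
  induction u with
  | nil => simp [bval]
  | cons x u ih =>
    rw [bval_cons, List.length_cons, pow_succ]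
    have : x.toNat ≤ 1 := Bool.toNat_le x
    omega

theorem bval_inj (u v : Word) (hl : u.length = v.length) (h : bval u = bval v) : u = v := by
  induction u generalizing v with
  | nil =>
    cases v with
    | nil => rfl
    | cons y v => simp at hl
  | cons x u ih =>
    cases v with
    | nil => simp at hl
    | cons y v =>
      rw [bval_cons, bval_cons] at h
      have h1 : x.toNat = y.toNat := by
        have a := Bool.toNat_le x
        have b := Bool.toNat_le y
        omega
      have h2 : bval u = bval v := by omega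
      have h3 : x = y := by
        cases x <;> cases y <;> simp_all
      rw [ih v (by simpa using hl) h2, h3]

theorem dw_bval (b : ℕ) (u : Word) (h : u.length = b) : dw b (bval u) = u := by
  apply bval_inj
  · rw [dw_len, h]
  · rw [bval_dw]
    rw [← h]
    exact bval_lt u

/-! ### digits in base `p` -/

theorem dig_ex (p : ℕ) (hp : 0 < p) (k : ℕ) : ∀ d : ℕ → ℕ, (∀ t < k, d t < p) →
    ∃ a < p ^ k, ∀ t < k, a / p ^ t % p = d t := by
  induction k with
  | zero => intro d _; exact ⟨0, by simp, fun t ht => by omega⟩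
  | succ k ih =>
    intro d hd
    obtain ⟨a, ha, h⟩ := ih (fun t => d (t + 1)) (fun t ht => hd (t + 1) (by omega))
    have hd0 := hd 0 (by omega)
    refine ⟨d 0 + p * a, ?_, ?_⟩
    · have h1 : p * (a + 1) ≤ p * p ^ k := Nat.mul_le_mul_left p ha
      have h2 : p * (a + 1) = p * a + p := by ring
      have h3 : p ^ (k + 1) = p * p ^ k := by ring
      rw [h3]
      omega
    · intro t ht
      cases t with
      | zero =>
        rw [pow_zero, Nat.div_one, Nat.add_mul_mod_self_left, Nat.mod_eq_of_lt hd0]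
      | succ t =>
        rw [pow_succ', ← Nat.div_div_eq_div_mul, Nat.add_mul_div_left _ _ hp,
          Nat.div_eq_of_lt hd0, Nat.zero_add]
        exact h t (by omega)

theorem dig_inj (p : ℕ) (hp : 0 < p) (k : ℕ) : ∀ a b : ℕ, a < p ^ k → b < p ^ k →
    (∀ t < k, a / p ^ t % p = b / p ^ t % p) → a = b := by
  induction k with
  | zero => intro a b ha hb _; simp at ha hb; omega
  | succ k ih =>
    intro a b ha hb h
    have h0 := h 0 (by omega)
    rw [pow_zero, Nat.div_one, Nat.div_one] at h0
    have h1 := ih (a / p) (b / p) (Nat.div_lt_of_lt_mul (by rw [← pow_succ']; exact ha))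
      (Nat.div_lt_of_lt_mul (by rw [← pow_succ']; exact hb)) (by
        intro t ht
        have h2 := h (t + 1) (by omega)
        rw [pow_succ', ← Nat.div_div_eq_div_mul, ← Nat.div_div_eq_div_mul] at h2
        exact h2)
    rw [← Nat.div_add_mod a p, ← Nat.div_add_mod b p, h0, h1]

/-! ### the words of the numbers -/

theorem cod_len (p k : ℕ) (a : ZMod (p ^ k)) : (cod p k a).length = k * db p := by
  unfold cod
  rw [len_flat (db p)]
  · simp
  · intro t; simp

theorem cod_bl (p k : ℕ) (a : ZMod (p ^ k)) (t : ℕ) (ht : t < k) :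
    blW (db p) (cod p k a) t = dw (db p) (a.val / p ^ t % p) := by
  unfold cod
  rw [bl_flat (db p) _ _ (fun t => by simp) t t (List.getElem?_range ht)]
  rfl

theorem enc_len (p k n : ℕ) (A : Matrix (Fin n) (Fin n) (ZMod (p ^ k))) :
    (encP p k n A).length = n * n * k * db p := by
  unfold encP
  rw [len_flat (k * db p) _ _ (fun r => cod_len p k _), List.length_finRange]
  ring

theorem enc_bl (p k n : ℕ) (A : Matrix (Fin n) (Fin n) (ZMod (p ^ k))) (r : Fin (n * n)) (t : ℕ)
    (ht : t < k) : blW (db p) (encP p k n A) (r * k + t) =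
      dw (db p) ((A r.divNat r.modNat).val / p ^ t % p) := by
  rw [bl_bl (db p) k _ r t ht]
  unfold encP
  rw [bl_flat (k * db p) _ _ (fun r => cod_len p k _) r r (by simp)]
  exact cod_bl p k _ t ht

theorem size_lt (p v : ℕ) (hp : 0 < p) (hv : v < p) : v < 2 ^ db p := by
  have h1 : p - 1 < 2 ^ db p := Nat.lt_size_self (p - 1)
  omega

theorem split (m k t : ℕ) (h : t < m * k) : ∃ (r : Fin m) (s : ℕ), s < k ∧ t = r * k + s := by
  have hk : 0 < k := by
    rcases Nat.eq_zero_or_pos k with h0 | h0
    · rw [h0] at h; omega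
    · exact h0
  refine ⟨⟨t / k, Nat.div_lt_of_lt_mul (by rw [Nat.mul_comm]; exact h)⟩, t % k,
    Nat.mod_lt _ hk, ?_⟩
  change t = t / k * k + t % k
  rw [Nat.mul_comm]
  exact (Nat.div_add_mod t k).symm

theorem enc_ok (p k n : ℕ) (hp : 0 < p) (A : Matrix (Fin n) (Fin n) (ZMod (p ^ k))) :
    okP p k n (encP p k n A) = true := by
  unfold okP
  rw [Bool.and_eq_true]
  refine ⟨decide_eq_true (enc_len p k n A), decide_eq_true ?_⟩
  intro t ht
  obtain ⟨r, s, hs, rfl⟩ := split (n * n) k t ht
  apply decide_eq_true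
  have h1 : (A r.divNat r.modNat).val / p ^ s % p < p := Nat.mod_lt _ hp
  rw [enc_bl p k n A r s hs, bval_dw _ _ (size_lt p _ hp h1)]
  exact h1

theorem enc_surj (p k n : ℕ) (hp : 0 < p) (w : Word) (h : okP p k n w = true) :
    ∃ A : Matrix (Fin n) (Fin n) (ZMod (p ^ k)), encP p k n A = w := by
  unfold okP at h
  rw [Bool.and_eq_true] at h
  have hl : w.length = n * n * k * db p := of_decide_eq_true h.1
  have hd : ∀ t < n * n * k, bval (blW (db p) w t) < p := fun t ht =>
    of_decide_eq_true (of_decide_eq_true h.2 t ht)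
  have hex : ∀ r : Fin (n * n), ∃ a < p ^ k, ∀ t < k, a / p ^ t % p =
      bval (blW (db p) w (r * k + t)) := by
    intro r
    apply dig_ex p hp k
    intro t ht
    apply hd
    have h1 : (r + 1) * k ≤ n * n * k := Nat.mul_le_mul_right k r.2
    have h2 : ((r : ℕ) + 1) * k = r * k + k := by ring
    omega
  choose a ha hb using hex
  have hn : ∀ i j : Fin n, (i : ℕ) * n + j < n * n := by
    intro i j
    have h1 : ((i : ℕ) + 1) * n ≤ n * n := Nat.mul_le_mul_right n i.2
    have h2 : ((i : ℕ) + 1) * n = i * n + n := by ring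
    have := j.2
    omega
  refine ⟨fun i j => ((a ⟨i * n + j, hn i j⟩ : ℕ) : ZMod (p ^ k)), ?_⟩
  apply bl_ext (db p) (n * n * k) _ _ (enc_len p k n _) hl
  intro t ht
  obtain ⟨r, s, hs, rfl⟩ := split (n * n) k t ht
  rw [enc_bl p k n _ r s hs]
  have e1 : (⟨(r.divNat : ℕ) * n + r.modNat, hn r.divNat r.modNat⟩ : Fin (n * n)) = r := by
    apply Fin.ext
    change (r : ℕ) / n * n + (r : ℕ) % n = r
    rw [Nat.mul_comm]
    exact Nat.div_add_mod _ n
  change dw (db p) ((((a ⟨(r.divNat : ℕ) * n + r.modNat, hn r.divNat r.modNat⟩ : ℕ) :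
    ZMod (p ^ k))).val / p ^ s % p) = _
  rw [e1, ZMod.val_natCast, Nat.mod_eq_of_lt (ha r), hb r s hs]
  apply dw_bval
  have h3 : (r : ℕ) * k + s < n * n * k := ht
  have h4 : ((r : ℕ) * k + s + 1) * db p ≤ n * n * k * db p := Nat.mul_le_mul_right _ h3
  have h5 : ((r : ℕ) * k + s + 1) * db p = ((r : ℕ) * k + s) * db p + db p := by ring
  unfold blW
  rw [List.length_take, List.length_drop, hl]
  omega

theorem fin_dm (n : ℕ) (i j : Fin n) : ∃ r : Fin (n * n), r.divNat = i ∧ r.modNat = j ∧
    (r : ℕ) = i * n + j := by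
  have h1 : ((i : ℕ) + 1) * n ≤ n * n := Nat.mul_le_mul_right n i.2
  have h2 : ((i : ℕ) + 1) * n = i * n + n := by ring
  have hj := j.2
  refine ⟨⟨i * n + j, by omega⟩, ?_, ?_, rfl⟩
  · apply Fin.ext
    change ((i : ℕ) * n + j) / n = i
    rw [Nat.mul_comm, Nat.mul_add_div (by omega), Nat.div_eq_of_lt hj, Nat.add_zero]
  · apply Fin.ext
    change ((i : ℕ) * n + j) % n = j
    rw [Nat.mul_comm, Nat.mul_add_mod, Nat.mod_eq_of_lt hj]

theorem enc_inj (p k n : ℕ) (hp : 0 < p) (A B : Matrix (Fin n) (Fin n) (ZMod (p ^ k)))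
    (h : encP p k n A = encP p k n B) : A = B := by
  have hne : NeZero (p ^ k) := ⟨pow_ne_zero k (by omega)⟩
  ext i j
  obtain ⟨r, h1, h2, -⟩ := fin_dm n i j
  have key : (A i j).val = (B i j).val := by
    apply dig_inj p hp k _ _ (ZMod.val_lt _) (ZMod.val_lt _)
    intro t ht
    have h3 := enc_bl p k n A r t ht
    rw [h, enc_bl p k n B r t ht, h1, h2] at h3
    have h4 := congrArg bval h3
    rw [bval_dw _ _ (size_lt p _ hp (Nat.mod_lt _ hp)),
      bval_dw _ _ (size_lt p _ hp (Nat.mod_lt _ hp))] at h4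
    exact h4.symm
  rw [ZMod.val_injective (p ^ k) key]

/-! ### words over `F` -/

section words

variable (F : Type) [Field F] [Fintype F] [DecidableEq F]

theorem cF_len (a : F) : (cF F a).length = Fintype.card F := by simp [cF]

theorem cF_inj (a b : F) (h : cF F a = cF F b) : a = b := by
  have h1 : (cF F a)[(eF F a : ℕ)]? = some true := by
    unfold cF
    rw [List.getElem?_map, List.getElem?_range (eF F a).2]
    simp
  rw [h] at h1
  unfold cF at h1
  rw [List.getElem?_map, List.getElem?_range (eF F a).2] at h1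
  simp only [Option.map_some, Option.some.injEq, decide_eq_true_eq] at h1
  exact (eF F).injective (Fin.ext h1)

theorem dF_cF (a : F) : dF F (cF F a) = a := by
  unfold dF
  have h : ∃ b, cF F b = cF F a := ⟨a, rfl⟩
  rw [dif_pos h]
  exact cF_inj F _ _ h.choose_spec

theorem gF_enc (n : ℕ) (A : Matrix (Fin n) (Fin n) F) (i j : Fin n) :
    gF F n (encF F A) i j = A i j := by
  obtain ⟨r, h1, h2, h3⟩ := fin_dm n i j
  unfold gF encF
  rw [← h3, bl_flat (Fintype.card F) _ _ (fun r => cF_len F _) r r (by simp), dF_cF, h1, h2]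

end words

theorem low_enc (p k n : ℕ) (hp : 0 < p) (hk : 0 < k) (A : Matrix (Fin n) (Fin n) (ZMod (p ^ k)))
    (i j : Fin n) : lowP p k n (encP p k n A) i j = (A i j).val % p := by
  obtain ⟨r, h1, h2, h3⟩ := fin_dm n i j
  unfold lowP
  have h4 := enc_bl p k n A r 0 hk
  rw [Nat.add_zero, h3] at h4
  rw [h4, h1, h2, pow_zero, Nat.div_one, bval_dw _ _ (size_lt p _ hp (Nat.mod_lt _ hp))]

theorem low_eta (p k n : ℕ) (hp : 0 < p) (hk : 0 < k) (F : Type) [Field F]
    (η : ZMod (p ^ k) →+* F) (A : Matrix (Fin n) (Fin n) (ZMod (p ^ k))) (i j : Fin n) :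
    (lowP p k n (encP p k n A) i j : F) = η (A i j) := by
  have hne : NeZero (p ^ k) := ⟨pow_ne_zero k (by omega)⟩
  have hp0 : (p : F) = 0 := by
    have h1 : ((p ^ k : ℕ) : ZMod (p ^ k)) = 0 := ZMod.natCast_self (p ^ k)
    have h2 : ((p ^ k : ℕ) : F) = 0 := by
      rw [← map_natCast η, h1, map_zero]
    rw [Nat.cast_pow] at h2
    exact pow_eq_zero_iff (by omega) |>.1 h2
  rw [low_enc p k n hp hk]
  have h3 : η (A i j) = (((A i j).val : ℕ) : F) := by
    rw [← map_natCast η, ZMod.natCast_zmod_val]
  rw [h3]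
  conv_rhs => rw [← Nat.div_add_mod (A i j).val p]
  rw [Nat.cast_add, Nat.cast_mul, hp0, zero_mul, zero_add]

theorem wdp : WdpStmt := by
  intro p k n hprime hk
  have hp := hprime.pos
  refine ⟨fun A => ⟨enc_len p k n A, enc_ok p k n hp A⟩, enc_surj p k n hp, enc_inj p k n hp, ?_⟩
  intro F _ _ _ η A
  refine ⟨low_eta p k n hp hk F η A, ?_⟩
  intro a a' M
  unfold eqW
  rw [decide_eq_true_iff]
  have e1 : ∀ i j : Fin n, (∑ l ∈ Finset.range n, (lowP p k n (encP p k n A) i l : F) *
      gF F n (encF F a) l j) = (A.map η * a) i j := by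
    intro i j
    rw [Finset.sum_range, Matrix.mul_apply]
    apply Finset.sum_congr rfl
    intro l _
    rw [low_eta p k n hp hk F η A i l, gF_enc, Matrix.map_apply]
  have e2 : ∀ i j : Fin n, (∑ l ∈ Finset.range n, gF F n (encF F a') i l *
      gF F n (encF F M) l j) = (a' * M) i j := by
    intro i j
    rw [Finset.sum_range, Matrix.mul_apply]
    apply Finset.sum_congr rfl
    intro l _
    rw [gF_enc, gF_enc]
  constructor
  · intro h
    ext i j
    have h1 := of_decide_eq_true (of_decide_eq_true (h i i.2) j j.2)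
    rw [e1, e2] at h1
    exact h1
  · intro h i hi
    apply decide_eq_true
    intro j hj
    apply decide_eq_true
    have h1 := e1 ⟨i, hi⟩ ⟨j, hj⟩
    have h2 := e2 ⟨i, hi⟩ ⟨j, hj⟩
    rw [h] at h1
    exact h1.trans h2.symm

end Pool.Agent.COSB.H76
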