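import Pool.Agent.COSB.StmtsA
import Pool.Agent.Helper76_COSB.WDP

/-!
# The two words of a matrix over `Z / 2^k` (row ECP of squad COSB)

Problem MP_0fc649_lc.
-/

set_option autoImplicit false

namespace Pool.Agent.COSB.H76

open Pool.Agent.PAR Pool.Agent.COS Pool.Agent.COSB

theorem cod_two (k : ℕ) (a : ZMod (2 ^ k)) :
    cod 2 k a = (List.range k).map fun t => a.val.testBit t := by
  unfold cod
  have h1 : db 2 = 1 := by
    show Nat.size 1 = 1
    exact Nat.size_one
  rw [h1]
  have h2 : ∀ t, ((List.range 1).map fun s => (a.val / 2 ^ t % 2).testBit s) =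
      [a.val.testBit t] := by
    intro t
    rw [List.range_one, List.map_singleton, Nat.testBit_eq_decide_div_mod_eq,
      Nat.testBit_eq_decide_div_mod_eq, pow_zero, Nat.div_one, Nat.mod_mod]
  simp only [h2]
  induction List.range k with
  | nil => rfl
  | cons x L ih => rw [List.flatMap_cons, ih, List.map_cons]; rfl

theorem ecp : EcpStmt := by
  intro n k A
  have hl1 : (encP 2 k n A).length = n * n * k := by
    unfold encP
    rw [len_flat k _ _ (fun r => by rw [cod_two]; simp), List.length_finRange]
  have hl2 : (enc2 k A).length = n * n * k := by simp [enc2]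
  apply List.ext_getElem?
  intro i
  rcases Nat.lt_or_ge i (n * n * k) with hi | hi
  · obtain ⟨r, s, hs, rfl⟩ := split (n * n) k i hi
    have e1 : (encP 2 k n A)[(r : ℕ) * k + s]? =
        some ((A r.divNat r.modNat).val.testBit s) := by
      rw [← bl_get k _ _ _ hs]
      unfold encP
      rw [bl_flat k (fun r => cod 2 k (A r.divNat r.modNat)) _
        (fun r => by rw [cod_two]; simp) r r (by simp), cod_two, List.getElem?_map,
        List.getElem?_range hs]
      rfl
    rw [e1]
    have hk : 0 < k := by omega
    have e2 : (⟨(r : ℕ) * k + s, hi⟩ : Fin (n * n * k)).divNat = r := by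
      apply Fin.ext
      show ((r : ℕ) * k + s) / k = r
      rw [Nat.add_comm, Nat.add_mul_div_right _ _ hk, Nat.div_eq_of_lt hs, Nat.zero_add]
    have e3 : ((⟨(r : ℕ) * k + s, hi⟩ : Fin (n * n * k)).modNat : ℕ) = s := by
      show ((r : ℕ) * k + s) % k = s
      rw [Nat.add_comm, Nat.add_mul_mod_self_right, Nat.mod_eq_of_lt hs]
    unfold enc2
    rw [List.getElem?_ofFn, dif_pos hi, e2, e3]
  · rw [List.getElem?_eq_none (by omega), List.getElem?_eq_none (by omega)]

end Pool.Agent.COSB.H76
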